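import Pool.Agent.FRE.Stmts

/-!
Squad FRE, row PLU: the Pluennecke inequality of Mathlib in the form used by the squad.
-/

set_option autoImplicit false

namespace Pool.Agent.FRE.H52

open Finset

open scoped Pointwise

open Classical in
theorem sum_mem_nsmul (A : Finset ℂ) (m : ℕ) (x : Fin m → ℂ) (h : ∀ i, x i ∈ A) :
    ∑ i, x i ∈ m • A := by
  induction m with
  | zero =>
    simp
  | succ m ih =>
    rw [Fin.sum_univ_castSucc, succ_nsmul]
    exact add_mem_add (ih _ fun i => h _) (h _)

open Classical in
theorem plu : PluStmt := by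
  intro A K m n hA hK
  refine ⟨m • A - n • A, ?_, ?_⟩
  · have h := pluennecke_ruzsa_inequality_nsmul_sub_nsmul_add hA A m n
    have hs : sms A = (A + A).card := by
      unfold sms
      rfl
    have hA0 : (0 : ℝ) < A.card := by
      exact_mod_cast hA.card_pos
    have h1 : (((m • A - n • A).card : ℝ)) ≤ (((A + A).card : ℝ) / A.card) ^ (m + n) * A.card := by
      have := (NNRat.cast_le (K := ℝ)).2 h
      push_cast at this
      exact this
    refine h1.trans ?_
    refine mul_le_mul_of_nonneg_right ?_ hA0.le
    refine pow_le_pow_left₀ (by positivity) ?_ _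
    rw [div_le_iff₀ hA0, ← hs]
    exact hK
  · intro x y hx hy
    exact sub_mem_sub (sum_mem_nsmul A m x hx) (sum_mem_nsmul A n y hy)

end Pool.Agent.FRE.H52
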